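import Pool.Agent.Lib.MP_4fbe7c_an.RS.Iface
import Pool.Agent.Lib.MP_4fbe7c_an.FC.H34.MainAB

/-!
Module RMN (helper9): assembly of the theorem on rates separated from the smallest one.
-/

set_option autoImplicit false

open Set

namespace Pool.Agent.Lib.MP_4fbe7c_an.RS.H9

open Pool.Agent.Lib.MP_4fbe7c_an.SD Pool.Agent.Lib.MP_4fbe7c_an.FC
  Pool.Agent.Lib.MP_4fbe7c_an.WH

theorem rmn (hrex : RexStatement) (hma : MainAStatement) (hfc : FinCStatement) :
    RmnStatement := by
  intro L m m' hL hm hmc' hnc hpos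
  have hmc : ContinuousOn m (Icc 0 L) := fun x hx => (hm x hx).continuousWithinAt
  obtain ⟨M, hM0, hM⟩ := FC.H34.bound hmc
  obtain ⟨κ₁, δ₀, hκ₁, hδ₀, hE⟩ := hrex L M 1 m m' hL hm hmc' hnc hM hM0 hpos one_pos
  obtain ⟨b, hb⟩ : ∃ b : ℝ, b = max δ₀ (25 * M * L ^ 2) := ⟨_, rfl⟩
  have hab : δ₀ ≤ b := by rw [hb]; exact le_max_left _ _
  have hbM : 25 * M * L ^ 2 ≤ b := by rw [hb]; exact le_max_right _ _
  obtain ⟨D₁, hD₁, hA⟩ := hma L δ₀ b m hL hmc hnc hδ₀ hab
  obtain ⟨D, hD⟩ : ∃ D : ℝ, D = max 1 D₁ := ⟨_, rfl⟩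
  have hD1 : 1 ≤ D := by rw [hD]; exact le_max_left _ _
  have hDD₁ : D₁ ≤ D := by rw [hD]; exact le_max_right _ _
  have hD0 : 0 < D := lt_of_lt_of_le one_pos hD1
  refine ⟨min κ₁ (δ₀ / (2 * D)), D, lt_min hκ₁ (by positivity), hD0, ?_⟩
  intro N d i₀ θ θ' θ'' hd0 hlt hsum hθ
  have hdp : ∀ j, 0 < d j := by
    intro j
    by_cases hj : j = i₀
    · rw [hj]; exact hd0
    · exact hd0.trans (hlt j hj)
  have hterm : ∀ j, 0 ≤ (if d j < D then d i₀ / d j else 0) := by
    intro j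
    split_ifs
    · exact (div_pos hd0 (hdp j)).le
    · exact le_rfl
  rcases le_total (d i₀) δ₀ with h | h
  · -- small rates
    refine hfc L M m θ θ' θ'' N d i₀ ∅ (fun _ _ => 0) (fun _ _ => 0) (fun _ _ => 0) hL hmc hnc
      hM0 hM hd0 hlt (Finset.notMem_empty _) hθ
      (fun j hj => absurd hj (Finset.notMem_empty _)) ?_
    intro u v w hs hp j hj0 _ hpj
    have ctx : Ctx L M m d u v w := ⟨hL, hM0, hmc, hM, hdp, hs⟩
    refine hE N d u v w i₀ j θ θ' θ'' ctx hθ h hp ?_ hj0 hpj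
    have h1 : (∑ k ∈ (PS L u).erase i₀, if d k < 1 then d i₀ / d k else 0) ≤
        ∑ k ∈ (PS L u).erase i₀, if d k < D then d i₀ / d k else 0 := by
      refine Finset.sum_le_sum fun k _ => ?_
      by_cases hk : d k < 1
      · rw [if_pos hk, if_pos (lt_of_lt_of_le hk hD1)]
      · rw [if_neg hk]; exact hterm k
    have h2 : (∑ k ∈ (PS L u).erase i₀, if d k < D then d i₀ / d k else 0) ≤
        ∑ k ∈ Finset.univ.erase i₀, if d k < D then d i₀ / d k else 0 :=
      Finset.sum_le_sum_of_subset_of_nonneg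
        (Finset.erase_subset_erase _ (Finset.subset_univ _)) fun k _ _ => hterm k
    exact (h1.trans h2).trans (hsum.trans (min_le_left _ _))
  · rcases le_total (d i₀) b with h' | h'
    · -- rates in a compact interval: every other rate is large
      have hfast : ∀ j, j ≠ i₀ → D ≤ d j := by
        intro j hj
        by_contra hcon
        push Not at hcon
        have h1 : (if d j < D then d i₀ / d j else 0) ≤
            ∑ j ∈ Finset.univ.erase i₀, if d j < D then d i₀ / d j else 0 :=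
          Finset.single_le_sum (f := fun j => if d j < D then d i₀ / d j else 0)
            (fun k _ => hterm k) (Finset.mem_erase.mpr ⟨hj, Finset.mem_univ j⟩)
        rw [if_pos hcon] at h1
        have h2 : δ₀ / D ≤ d i₀ / d j := by
          rw [div_le_div_iff₀ hD0 (hdp j)]
          exact mul_le_mul h hcon.le (hdp j).le hd0.le
        have h3 : d i₀ / d j ≤ δ₀ / (2 * D) := h1.trans (hsum.trans (min_le_right _ _))
        have h4 : δ₀ / (2 * D) < δ₀ / D := by
          rw [div_lt_div_iff_of_pos_left hδ₀ (by positivity) hD0]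
          linarith
        linarith
      by_cases hex : ∃ i₁, i₁ ≠ i₀
      · obtain ⟨i₁, hne⟩ := hex
        exact hA N d i₀ i₁ θ θ' θ'' hne h h' hlt
          (fun j h1 _ => hDD₁.trans (hfast j h1)) hθ
      · push Not at hex
        exact gas_of_weights (φ := fun _ _ => 0) (φ' := fun _ _ => 0) (φ'' := fun _ _ => 0)
          hL hmc hdp i₀ hθ (fun j hj => absurd (hex j) hj)
    · -- large rates
      have hmM : ∀ x ∈ Icc 0 L, m x ≤ M := fun x hx => (le_abs_self _).trans (hM x hx)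
      have hm0 : ∀ x ∈ Icc 0 L, 0 ≤ m x := fun x hx => (hpos x hx).le
      have h1 : 25 * M * L ^ 2 ≤ d i₀ := hbM.trans h'
      have hML : 0 ≤ M * L ^ 2 := by positivity
      have h2 : 16 * (M - 0) * L ^ 2 ≤ d i₀ := by nlinarith
      have hW := weight_explicit hL hmc hnc hmM hm0 hd0 h1 h2 hθ
      have hw : ∀ j, ∃ φ φ' φ'' : ℝ → ℝ, j ≠ i₀ → Weight L m θ (d j) φ φ' φ'' := by
        intro j
        by_cases hj : j = i₀
        · exact ⟨fun _ => 0, fun _ => 0, fun _ => 0, fun h => absurd hj h⟩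
        · obtain ⟨φ, φ', φ'', h⟩ := hW (d j) (hlt j hj)
          exact ⟨φ, φ', φ'', fun _ => h⟩
      choose φ φ' φ'' hφ using hw
      exact gas_of_weights hL hmc hdp i₀ hθ (fun j hj => hφ j hj)

end Pool.Agent.Lib.MP_4fbe7c_an.RS.H9
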