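import Pool.Agent.Lib.MP_4fbe7c_an.RS.Iface

/-!
Module RZS (helper9): bound for `θ'/θ` which does not depend on the rate (maximum principle).
-/

set_option autoImplicit false

open Set

namespace Pool.Agent.Lib.MP_4fbe7c_an.RS.H9

open Pool.Agent.Lib.MP_4fbe7c_an.SD

/-- A maximum principle for `z' = k` where `k` crosses zero only upwards above the level `B`. -/
theorem max_bound {L B : ℝ} {z k : ℝ → ℝ} (hL : 0 < L) (hz : DerivOn L z k)
    (h0 : z 0 ≤ B) (h1 : z L ≤ B)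
    (hk : ∀ x ∈ Ioo 0 L, B < z x → k x = 0 → ∃ c : ℝ, 0 < c ∧ HasDerivAt k c x) :
    ∀ x ∈ Icc 0 L, z x ≤ B := by
  have hzc : ContinuousOn z (Icc 0 L) := fun x hx => (hz x hx).continuousWithinAt
  obtain ⟨x₀, hx₀, hmax⟩ := isCompact_Icc.exists_isMaxOn (nonempty_Icc.mpr hL.le) hzc
  have hmax' : ∀ x ∈ Icc 0 L, z x ≤ z x₀ := fun x hx => hmax hx
  by_contra hcon
  push Not at hcon
  obtain ⟨y, hy, hyB⟩ := hcon
  have hBx : B < z x₀ := lt_of_lt_of_le hyB (hmax' y hy)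
  have hne0 : x₀ ≠ 0 := by
    intro h
    rw [h] at hBx
    exact absurd h0 (not_le.mpr hBx)
  have hneL : x₀ ≠ L := by
    intro h
    rw [h] at hBx
    exact absurd h1 (not_le.mpr hBx)
  have hint : x₀ ∈ Ioo 0 L :=
    ⟨lt_of_le_of_ne hx₀.1 (Ne.symm hne0), lt_of_le_of_ne hx₀.2 hneL⟩
  have hd : ∀ x ∈ Ioo 0 L, HasDerivAt z (k x) x := fun x hx =>
    (hz x (Ioo_subset_Icc_self hx)).hasDerivAt (Icc_mem_nhds hx.1 hx.2)
  have hloc : IsLocalMax z x₀ := by
    filter_upwards [Icc_mem_nhds hint.1 hint.2] with x hx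
    exact hmax' x hx
  have hk0 : k x₀ = 0 := hloc.hasDerivAt_eq_zero (hd x₀ hint)
  obtain ⟨c, hc, hkc⟩ := hk x₀ hint hBx hk0
  -- `k > 0` to the right of `x₀`
  have hev : ∀ᶠ x in nhdsWithin x₀ (Ioi x₀), 0 < k x := by
    have h2 : Filter.Tendsto (slope k x₀) (nhdsWithin x₀ (Ioi x₀)) (nhds c) :=
      (hasDerivAt_iff_tendsto_slope.mp hkc).mono_left
        (nhdsWithin_mono _ (fun x hx => ne_of_gt hx))
    have h3 := h2.eventually (lt_mem_nhds hc)
    filter_upwards [h3, self_mem_nhdsWithin] with x hx hxx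
    rw [slope_def_field, hk0, sub_zero] at hx
    have h4 : 0 < x - x₀ := sub_pos.mpr hxx
    by_contra hneg
    push Not at hneg
    exact absurd hx (not_lt.mpr (div_nonpos_of_nonpos_of_nonneg hneg h4.le))
  have hev2 : ∀ᶠ x in nhdsWithin x₀ (Ioi x₀), x < L :=
    mem_nhdsWithin_of_mem_nhds (Iio_mem_nhds hint.2)
  obtain ⟨u, hu, hsub⟩ := mem_nhdsGT_iff_exists_Ioo_subset.mp (hev.and hev2)
  have hu' : x₀ < u := hu
  have hs : x₀ < (x₀ + u) / 2 ∧ (x₀ + u) / 2 < u := ⟨by linarith, by linarith⟩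
  set s := (x₀ + u) / 2 with hsdef
  have hsL : s < L := (hsub ⟨hs.1, hs.2⟩).2
  obtain ⟨ξ, hξ, hξe⟩ := exists_hasDerivAt_eq_slope z k hs.1
    (hzc.mono (fun x hx => ⟨hint.1.le.trans hx.1, hx.2.trans hsL.le⟩))
    (fun x hx => hd x ⟨hint.1.trans hx.1, hx.2.trans hsL⟩)
  have hξpos : 0 < k ξ := (hsub ⟨hξ.1, hξ.2.trans hs.2⟩).1
  rw [hξe] at hξpos
  have h5 : 0 < s - x₀ := by linarith [hs.1]
  have h6 : 0 < z s - z x₀ := by
    by_contra hneg
    push Not at hneg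
    exact absurd hξpos (not_lt.mpr (div_nonpos_of_nonpos_of_nonneg hneg h5.le))
  have h7 := hmax' s ⟨hint.1.le.trans hs.1.le, hsL.le⟩
  linarith

theorem rzs : RzsStatement := by
  intro L m₀ P d m m' θ θ' θ'' hL hm₀ hd hm hP hθ hlow
  have hP0 : 0 ≤ P := (abs_nonneg _).trans (hP 0 ⟨le_rfl, hL.le⟩)
  have hB : 0 ≤ P / m₀ := div_nonneg hP0 hm₀.le
  have hθne : ∀ x ∈ Icc 0 L, θ x ≠ 0 := fun x hx => (hθ.pos x hx).ne'
  -- the derivative of `ζ`
  have hζ : DerivOn L (fun x => θ' x / θ x)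
      (fun x => -(m x - θ x) / d - (θ' x / θ x) ^ 2) := by
    intro x hx
    have h1 := (hθ.d2 x hx).div (hθ.d1 x hx) (hθne x hx)
    refine h1.congr_deriv ?_
    have h2 := hθ.eq x hx
    have h3 := hθne x hx
    field_simp
    linear_combination θ x * h2
  have hm' : ∀ x ∈ Ioo 0 L, HasDerivAt m (m' x) x := fun x hx =>
    (hm x (Ioo_subset_Icc_self hx)).hasDerivAt (Icc_mem_nhds hx.1 hx.2)
  have hθ' : ∀ x ∈ Ioo 0 L, HasDerivAt θ (θ' x) x := fun x hx =>
    (hθ.d1 x (Ioo_subset_Icc_self hx)).hasDerivAt (Icc_mem_nhds hx.1 hx.2)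
  have hζ' : ∀ x ∈ Ioo 0 L, HasDerivAt (fun x => θ' x / θ x)
      (-(m x - θ x) / d - (θ' x / θ x) ^ 2) x := fun x hx =>
    (hζ x (Ioo_subset_Icc_self hx)).hasDerivAt (Icc_mem_nhds hx.1 hx.2)
  have hkd : ∀ x ∈ Ioo 0 L, -(m x - θ x) / d - (θ' x / θ x) ^ 2 = 0 →
      HasDerivAt (fun x => -(m x - θ x) / d - (θ' x / θ x) ^ 2) ((θ' x - m' x) / d) x := by
    intro x hx h0
    have h1 := ((((hm' x hx).sub (hθ' x hx)).neg).div_const d).sub ((hζ' x hx).pow 2)
    refine h1.congr_deriv ?_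
    rw [h0]
    ring
  have hz0 : θ' 0 / θ 0 = 0 := by rw [hθ.b0, zero_div]
  have hzL : θ' L / θ L = 0 := by rw [hθ.bL, zero_div]
  have hup : ∀ x ∈ Icc 0 L, θ' x / θ x ≤ P / m₀ := by
    refine max_bound (z := fun x => θ' x / θ x) hL hζ (by simp only [hz0]; exact hB)
      (by simp only [hzL]; exact hB) ?_
    intro x hx hBx hk0
    refine ⟨(θ' x - m' x) / d, ?_, hkd x hx hk0⟩
    have hx' := Ioo_subset_Icc_self hx
    have h1 := hθ.pos x hx'
    have h2 := hlow x hx'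
    have h3 := hP x hx'
    have h4 : P / m₀ * θ x < θ' x := by
      have := mul_lt_mul_of_pos_right hBx h1
      rwa [div_mul_cancel₀ _ h1.ne'] at this
    have h5 : P ≤ P / m₀ * θ x := by
      calc P = P / m₀ * m₀ := by field_simp
        _ ≤ P / m₀ * θ x := mul_le_mul_of_nonneg_left h2 hB
    have h6 := le_abs_self (m' x)
    exact div_pos (by linarith) hd
  have hdown : ∀ x ∈ Icc 0 L, -(θ' x / θ x) ≤ P / m₀ := by
    refine max_bound (z := fun x => -(θ' x / θ x))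
      (k := fun x => -(-(m x - θ x) / d - (θ' x / θ x) ^ 2)) hL
      (fun x hx => (hζ x hx).neg) (by simp only [hz0, neg_zero]; exact hB)
      (by simp only [hzL, neg_zero]; exact hB) ?_
    intro x hx hBx hk0
    have hk0' : -(m x - θ x) / d - (θ' x / θ x) ^ 2 = 0 := neg_eq_zero.mp hk0
    refine ⟨-((θ' x - m' x) / d), ?_, (hkd x hx hk0').neg⟩
    have hx' := Ioo_subset_Icc_self hx
    have h1 := hθ.pos x hx'
    have h2 := hlow x hx'
    have h3 := hP x hx'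
    have h4 : P / m₀ * θ x < -θ' x := by
      have := mul_lt_mul_of_pos_right hBx h1
      rwa [neg_mul, div_mul_cancel₀ _ h1.ne'] at this
    have h5 : P ≤ P / m₀ * θ x := by
      calc P = P / m₀ * m₀ := by field_simp
        _ ≤ P / m₀ * θ x := mul_le_mul_of_nonneg_left h2 hB
    have h6 := neg_le_abs (m' x)
    rw [← neg_div]
    exact div_pos (by linarith) hd
  intro x hx
  rw [abs_le]
  exact ⟨by linarith [hdown x hx], hup x hx⟩

end Pool.Agent.Lib.MP_4fbe7c_an.RS.H9
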